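import Pool.Agent.Helper94.KC.GoalsC

/-!
# Project KC (MP_bf413e_co), packet AR
-/

set_option autoImplicit false

namespace Pool.Agent.Helper39.KC

open scoped Classical
open Finset
open Pool.Agent.Helper94.KC

/-! ### edge sets of walks -/

theorem toFinset_inj {V : Type} {e e' : Sym2 V} (h : e.toFinset = e'.toFinset) : e = e' := by
  apply Sym2.ext
  intro x
  rw [← Sym2.mem_toFinset, ← Sym2.mem_toFinset, h]

theorem mem_wed {V : Type} {G : SimpleGraph V} {x y : V} (w : G.Walk x y) (e : Finset V) :
    e ∈ wed w ↔ ∃ s ∈ w.edges, s.toFinset = e := by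
  simp [wed]

theorem wed_nil {V : Type} {G : SimpleGraph V} {x : V} :
    wed (SimpleGraph.Walk.nil : G.Walk x x) = ∅ := by
  simp [wed]

theorem wed_cons {V : Type} {G : SimpleGraph V} {x y z : V} (h : G.Adj x y) (w : G.Walk y z) :
    wed (SimpleGraph.Walk.cons h w) = insert {x, y} (wed w) := by
  ext e
  rw [Finset.mem_insert, mem_wed, mem_wed, SimpleGraph.Walk.edges_cons]
  simp only [List.mem_cons, exists_eq_or_imp, Sym2.toFinset_mk_eq]
  constructor
  · rintro (h1 | h1)
    · exact Or.inl h1.symm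
    · exact Or.inr h1
  · rintro (h1 | h1)
    · exact Or.inl h1.symm
    · exact Or.inr h1

theorem wed_append {V : Type} {G : SimpleGraph V} {x y z : V} (w : G.Walk x y) (w' : G.Walk y z) :
    wed (w.append w') = wed w ∪ wed w' := by
  ext e
  simp only [Finset.mem_union, mem_wed, SimpleGraph.Walk.edges_append, List.mem_append]
  constructor
  · rintro ⟨s, h1 | h1, h2⟩
    · exact Or.inl ⟨s, h1, h2⟩
    · exact Or.inr ⟨s, h1, h2⟩
  · rintro (⟨s, h1, h2⟩ | ⟨s, h1, h2⟩)
    · exact ⟨s, Or.inl h1, h2⟩
    · exact ⟨s, Or.inr h1, h2⟩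

theorem wed_reverse {V : Type} {G : SimpleGraph V} {x y : V} (w : G.Walk x y) :
    wed w.reverse = wed w := by
  ext e
  simp [mem_wed]

theorem wed_rotate {V : Type} {G : SimpleGraph V} {x y : V} (w : G.Walk x x)
    (h : y ∈ w.support) : wed (w.rotate y h) = wed w := by
  ext e
  rw [mem_wed, mem_wed]
  constructor
  · rintro ⟨s, h1, h2⟩
    exact ⟨s, (w.rotate_edges y h).mem_iff.1 h1, h2⟩
  · rintro ⟨s, h1, h2⟩
    exact ⟨s, (w.rotate_edges y h).mem_iff.2 h1, h2⟩

/-- the edge set of a trail as an image -/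
theorem wed_eq_image {V : Type} {G : SimpleGraph V} {x y : V} (w : G.Walk x y) :
    wed w = w.edges.toFinset.image Sym2.toFinset := by
  ext e
  simp [mem_wed]

theorem card_wed {V : Type} {G : SimpleGraph V} {x y : V} (w : G.Walk x y) (h : w.IsTrail) :
    (wed w).card = w.length := by
  rw [wed_eq_image, Finset.card_image_of_injective _ (fun a b hab => toFinset_inj hab),
    List.toFinset_card_of_nodup h.edges_nodup, SimpleGraph.Walk.length_edges]

theorem card_wed_le {V : Type} {G : SimpleGraph V} {x y : V} (w : G.Walk x y) :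
    (wed w).card ≤ w.length := by
  rw [wed_eq_image, Finset.card_image_of_injective _ (fun a b hab => toFinset_inj hab),
    ← SimpleGraph.Walk.length_edges]
  exact List.toFinset_card_le _

theorem card_filter_wed {V : Type} {G : SimpleGraph V} {x y : V} (w : G.Walk x y)
    (h : w.IsTrail) (v : V) :
    ((wed w).filter (fun e => v ∈ e)).card = w.edges.countP (fun e => v ∈ e) := by
  have h1 : (wed w).filter (fun e => v ∈ e)
      = (w.edges.toFinset.filter (fun e => v ∈ e)).image Sym2.toFinset := by
    rw [wed_eq_image, Finset.filter_image]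
    congr 1
    ext s
    simp
  have h2 : w.edges.toFinset.filter (fun e => v ∈ e)
      = (w.edges.filter (fun e => v ∈ e)).toFinset := by
    ext s
    simp
  rw [h1, Finset.card_image_of_injective _ (fun a b hab => toFinset_inj hab),
    List.countP_eq_length_filter, h2,
    List.toFinset_card_of_nodup (h.edges_nodup.filter _)]

theorem parity {V : Type} {G : SimpleGraph V} {x y : V} (w : G.Walk x y)
    (h : w.IsTrail) (v : V) :
    Even ((wed w).filter (fun e => v ∈ e)).card ↔ (x ≠ y → v ≠ x ∧ v ≠ y) := by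
  rw [card_filter_wed w h]
  exact h.even_countP_edges_iff v

theorem even_card_symmDiff {α : Type} [DecidableEq α] (A B : Finset α) :
    Even (symmDiff A B).card ↔ (Even A.card ↔ Even B.card) := by
  have h1 : (symmDiff A B).card + 2 * (A ∩ B).card = A.card + B.card := by
    have h2 : symmDiff A B = (A \ B) ∪ (B \ A) := rfl
    have h3 : (symmDiff A B).card = (A \ B).card + (B \ A).card := by
      rw [h2, Finset.card_union_of_disjoint disjoint_sdiff_sdiff]
    have h4 := Finset.card_sdiff_add_card_inter A B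
    have h5 := Finset.card_sdiff_add_card_inter B A
    rw [Finset.inter_comm B A] at h5
    omega
  have h2 : Even (symmDiff A B).card ↔ Even (A.card + B.card) := by
    rw [← h1, Nat.even_add]
    simp
  rw [h2, Nat.even_add]

theorem filter_symmDiff {α : Type} [DecidableEq α] (A B : Finset α) (P : α → Prop) [DecidablePred P] :
    (symmDiff A B).filter P = symmDiff (A.filter P) (B.filter P) := by
  ext a
  simp only [Finset.mem_filter, Finset.mem_symmDiff]
  tauto

/-- a walk `w : q → p` and a walk `b : p → q` without repeated edges: the symmetric difference is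
even -/
theorem even_symmDiff {V : Type} {G : SimpleGraph V} {p q : V} (w : G.Walk q p) (b : G.Walk p q)
    (hw : w.IsTrail) (hb : b.IsTrail) : Even2 (symmDiff (wed w) (wed b)) := by
  intro v
  rw [filter_symmDiff, even_card_symmDiff, parity w hw, parity b hb]
  constructor
  · intro h1 h2
    exact (h1 h2.symm).symm
  · intro h1 h2
    exact (h1 h2.symm).symm

theorem mem_support_of_wed {V : Type} {G : SimpleGraph V} {x y v : V} (w : G.Walk x y)
    {e : Finset V} (he : e ∈ wed w) (hv : v ∈ e) : v ∈ w.support := by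
  obtain ⟨s, h1, rfl⟩ := (mem_wed w e).1 he
  exact SimpleGraph.Walk.mem_support_of_mem_edges h1 (Sym2.mem_toFinset.1 hv)

/-! ### walking in a disc -/

section disc

variable {V : Type} [Fintype V] {T D : Finset (Finset V)} {S : Set V}

/-- edge at an interior vertex -/
theorem edge_mem {a b : V} (ha : ∀ t ∈ T, a ∈ t → t ∈ D) (h : (sk T).Adj a b) :
    ({a, b} : Finset V) ∈ ed D ∧ ∃ t ∈ D, b ∈ t := by
  obtain ⟨hne, t, ht, h1, h2⟩ := h
  have htD := ha t ht h1
  refine ⟨?_, t, htD, h2⟩
  simp only [ed, Finset.mem_filter, Finset.mem_univ, true_and]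
  refine ⟨Finset.card_pair hne, t, htD, ?_⟩
  intro z hz
  simp only [Finset.mem_insert, Finset.mem_singleton] at hz
  rcases hz with rfl | rfl
  · exact h1
  · exact h2

theorem hit (hS : ∀ v, v ∉ S → (∃ t ∈ D, v ∈ t) → ∀ t ∈ T, v ∈ t → t ∈ D)
    {a b : V} (W : (sk T).Walk a b) : (∀ t ∈ T, a ∈ t → t ∈ D) →
    (wed W ⊆ ed D) ∨ ∃ p ∈ S, ∃ (W1 : (sk T).Walk a p) (W2 : (sk T).Walk p b),
      W = W1.append W2 ∧ wed W1 ⊆ ed D := by
  induction W with
  | nil =>
    intro _
    left
    rw [wed_nil]
    exact Finset.empty_subset _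
  | @cons a c b h W' ih =>
    intro ha
    obtain ⟨h1, h2⟩ := edge_mem ha h
    by_cases hc : c ∈ S
    · right
      refine ⟨c, hc, SimpleGraph.Walk.cons h SimpleGraph.Walk.nil, W', rfl, ?_⟩
      rw [wed_cons, wed_nil]
      intro e he
      simp only [Finset.mem_insert, Finset.notMem_empty, or_false] at he
      rw [he]
      exact h1
    · rcases ih (hS c hc h2) with h3 | ⟨p, hp, W1, W2, h3, h4⟩
      · left
        rw [wed_cons]
        exact Finset.insert_subset h1 h3
      · right
        refine ⟨p, hp, SimpleGraph.Walk.cons h W1, W2, ?_, ?_⟩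
        · rw [h3]; rfl
        · rw [wed_cons]
          exact Finset.insert_subset h1 h4

end disc

theorem ar (hEV : StmtEV) (hDB : StmtDB) (hAC : StmtAC) (hSH : StmtSH) : StmtAR := by
  intro V _ T hT x₀ w₀ hw₀ x hx D y w' hw' hD hxD hxw'
  obtain ⟨ev1, ev2, ev3, ev4, ev5, ev6⟩ := hEV V T hT
  -- the rotated cycle
  obtain ⟨w, hwc, hwe⟩ : ∃ w : (sk T).Walk x x, w.IsCycle ∧ wed w = wed w₀ :=
    ⟨w₀.rotate x hx, hw₀.cyc.rotate hx, wed_rotate w₀ hx⟩
  have hnb : ¬ Bounds T (wed w) := by rw [hwe]; exact hw₀.nb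
  have hz : (wed w').Nonempty := by
    rw [← Finset.card_pos, (ev4 y w' hw').2.1]
    have := hw'.three_le_length
    omega
  obtain ⟨db1, db2⟩ := hDB V T hT D (wed w') hD hz
  have hbd : ∀ z ⊆ ed D, Even2 z → Bounds T z := by
    intro z hz1 hz2
    obtain ⟨D', h1, h2⟩ := db1 z hz1 hz2
    exact ⟨D', h1.trans hD.sub, h2⟩
  have hS : ∀ v, v ∉ ({v | v ∈ w'.support} : Set V) → (∃ t ∈ D, v ∈ t) →
      ∀ t ∈ T, v ∈ t → t ∈ D := by
    intro v hv ⟨t', ht', hvt'⟩ t ht hvt
    refine db2 v ?_ t' (hD.sub ht') t ht hvt' hvt ht'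
    intro e he hve
    exact hv (mem_support_of_wed w' he hve)
  have hxint : ∀ t ∈ T, x ∈ t → t ∈ D := hS x hxw' hxD
  have hno : ¬ wed w ⊆ ed D := fun h => hnb (hbd _ h (ev4 x w hwc).1)
  -- first hit in both directions
  rcases hit hS w hxint with h1 | ⟨p, hp, W1, W2, hW, hW1⟩
  · exact absurd h1 hno
  rcases hit hS W2.reverse hxint with h1 | ⟨q, hq, V1, V2, hV, hV1⟩
  · exfalso
    apply hno
    rw [hW, wed_append]
    rw [wed_reverse] at h1
    exact Finset.union_subset hW1 h1
  have hp' : p ∈ w'.support := hp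
  have hq' : q ∈ w'.support := hq
  have hW2 : W2 = V2.reverse.append V1.reverse := by
    rw [← SimpleGraph.Walk.reverse_append, ← hV, SimpleGraph.Walk.reverse_reverse]
  -- the trail from q to p through x
  have htrail : (V1.reverse.append W1).IsTrail := by
    rw [SimpleGraph.Walk.isTrail_def]
    have h1 := hwc.isTrail.edges_nodup
    rw [hW, hW2, SimpleGraph.Walk.edges_append, SimpleGraph.Walk.edges_append] at h1
    rw [SimpleGraph.Walk.edges_append]
    have h2 := (List.nodup_append'.1 h1)
    have h3 := (List.nodup_append'.1 h2.2.1)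
    refine List.nodup_append'.2 ⟨h3.2.1, h2.1, ?_⟩
    intro e he1 he2
    exact h2.2.2 he2 (List.mem_append_right _ he1)
  have hAw : wed (V1.reverse.append W1) ⊆ wed w₀ := by
    rw [← hwe, hW, hW2, wed_append, wed_append, wed_append]
    intro e he
    rw [Finset.mem_union] at he
    rw [Finset.mem_union, Finset.mem_union]
    tauto
  have hAD : wed (V1.reverse.append W1) ⊆ ed D := by
    rw [wed_append, wed_reverse]
    exact Finset.union_subset hV1 hW1
  have hxp : x ≠ p := fun h => hxw' (h ▸ hp')
  have hW1pos : 0 < W1.length := by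
    rcases Nat.eq_zero_or_pos W1.length with h | h
    · exact absurd (SimpleGraph.Walk.eq_of_length_eq_zero h) hxp
    · exact h
  have hcardA : W1.length ≤ (wed (V1.reverse.append W1)).card := by
    rw [card_wed _ htrail, SimpleGraph.Walk.length_append]
    omega
  obtain ⟨sh1, _⟩ := hSH V T hT x₀ w₀ hw₀
  -- a short trail b from p to q in the boundary
  obtain ⟨b, hb1, hb2, hb3⟩ : ∃ b : (sk T).Walk p q, b.IsTrail ∧ wed b ⊆ wed w' ∧
      2 * b.length ≤ w'.length := by
    by_cases hpq : p = q
    · subst hpq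
      refine ⟨SimpleGraph.Walk.nil, SimpleGraph.Walk.IsTrail.nil, ?_, ?_⟩
      · rw [wed_nil]; exact Finset.empty_subset _
      · simp
    · obtain ⟨A, B, hA, hB, hlen, _, hun, _, _⟩ := hAC V (sk T) y p q w' hw' hp' hq' hpq
      rcases le_total A.length B.length with h | h
      · refine ⟨A, hA.isTrail, ?_, by omega⟩
        rw [← hun]; exact Finset.subset_union_left
      · refine ⟨B, hB.isTrail, ?_, by omega⟩
        rw [← hun]; exact Finset.subset_union_right
  have hw'D : wed w' ⊆ ed D := by
    rw [← hD.bdy]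
    intro e he
    simp only [bd, Finset.mem_filter] at he
    obtain ⟨he1, he2⟩ := he
    simp only [ed, Finset.mem_filter, Finset.mem_univ, true_and] at he1 ⊢
    refine ⟨he1.1, ?_⟩
    have h1 : (D.filter (fun t => e ⊆ t)).Nonempty := by
      rw [← Finset.card_pos]
      exact he2.pos
    obtain ⟨t, ht⟩ := h1
    rw [Finset.mem_filter] at ht
    exact ⟨t, ht.1, ht.2⟩
  have hbT : wed b ⊆ ed T := hb2.trans (ev4 y w' hw').2.2
  have hsub : symmDiff (wed (V1.reverse.append W1)) (wed b) ⊆ ed D := by
    intro e he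
    rw [Finset.mem_symmDiff] at he
    rcases he with h | h
    · exact hAD h.1
    · exact hw'D (hb2 h.1)
  have hev := even_symmDiff (V1.reverse.append W1) b htrail hb1
  have hfin := sh1 _ hAw _ hbT hev (hbd _ hsub hev)
  have h1 := card_wed_le b
  have h2 : (sk T).dist x p ≤ W1.length := SimpleGraph.dist_le W1
  exact ⟨p, hp', by omega⟩

end Pool.Agent.Helper39.KC
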