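import Pool.Agent.Helper53.KC.Goals

/-!
# Almost every matroid is `k`-connected: INJ

A matroid is determined by its small circuits, its large hyperplanes, the non-bases outside `A`, the
non-bases in `D` and a maximal stable set of undetermined non-bases.
-/

namespace Pool.Agent.Helper39.KC

open Finset Pool.Agent.Helper53.KC

variable {n : ℕ}

theorem mem_V {r : ℕ} {X : Finset (Fin n)} : X ∈ V n r ↔ X.card = r := by
  simp [V, mem_powersetCard]

theorem mem_NB {r : ℕ} {M : Matroid (Fin n)} {X : Finset (Fin n)} :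
    X ∈ NB r M ↔ X.card = r ∧ ¬ M.Indep (X : Set (Fin n)) := by
  simp [NB, mem_V]

theorem adj_elim {X X' : Finset (Fin n)} (h : adj X X') :
    ∃ e f, e ∈ X ∧ f ∉ X ∧ e ∉ X' ∧ f ∈ X' ∧ X' = insert f (X.erase e) ∧
      X'.erase f = X.erase e := by
  obtain ⟨h1, h2⟩ := h
  have h3 : (X \ X').card = 1 := by
    have := card_sdiff_add_card_inter X X'
    omega
  have h4 : (X' \ X).card = 1 := by
    have := card_sdiff_add_card_inter X' X
    rw [inter_comm] at this
    omega
  obtain ⟨e, he⟩ := card_eq_one.mp h3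
  obtain ⟨f, hf⟩ := card_eq_one.mp h4
  have he1 : e ∈ X \ X' := by rw [he]; simp
  have hf1 : f ∈ X' \ X := by rw [hf]; simp
  rw [mem_sdiff] at he1 hf1
  have key : ∀ g, g ∈ X → g ≠ e → g ∈ X' := fun g hg hne => by
    by_contra hcon
    have h5 : g ∈ X \ X' := mem_sdiff.mpr ⟨hg, hcon⟩
    rw [he, mem_singleton] at h5
    exact hne h5
  have key' : ∀ g, g ∈ X' → g ≠ f → g ∈ X := fun g hg hne => by
    by_contra hcon
    have h5 : g ∈ X' \ X := mem_sdiff.mpr ⟨hg, hcon⟩
    rw [hf, mem_singleton] at h5
    exact hne h5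
  have hA : X'.erase f = X.erase e := by
    ext g
    rw [mem_erase, mem_erase]
    constructor
    · rintro ⟨h5, h6⟩
      refine ⟨?_, key' g h6 h5⟩
      rintro rfl
      exact he1.2 h6
    · rintro ⟨h5, h6⟩
      refine ⟨?_, key g h6 h5⟩
      rintro rfl
      exact hf1.2 h6
  refine ⟨e, f, he1.1, hf1.2, he1.2, hf1.1, ?_, hA⟩
  rw [← hA, insert_erase hf1.1]

theorem count_aux {Δ : ℕ} {A K : Finset (Finset (Fin n))} {X : Finset (Fin n)}
    (hlow : Low A Δ) (hXA : X ∈ A) (T : Finset (Fin n)) (φ : Fin n → Finset (Fin n)) (x0 : Fin n)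
    (hinj : ∀ g ∈ T, ∀ g' ∈ T, φ g = φ g' → g = g')
    (hadj : ∀ g ∈ T, g ≠ x0 → adj X (φ g)) (hK : ∀ g ∈ T, φ g ∈ K) :
    T.card ≤ (T.filter fun g => φ g ∈ K \ A).card + Δ := by
  classical
  have h1 : T ⊆ (T.filter fun g => φ g ∈ K \ A) ∪
      insert x0 ((T.erase x0).filter fun g => φ g ∈ A) := by
    intro g hg
    rw [mem_union, mem_filter, mem_insert, mem_filter, mem_erase, mem_sdiff]
    by_cases h : φ g ∈ A
    · by_cases h0 : g = x0
      · exact Or.inr (Or.inl h0)
      · exact Or.inr (Or.inr ⟨⟨h0, hg⟩, h⟩)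
    · exact Or.inl ⟨hg, hK g hg, h⟩
  have h2 : (((T.erase x0).filter fun g => φ g ∈ A).image φ).card < Δ := by
    refine hlow X hXA _ ?_ ?_
    · intro w hw
      obtain ⟨g, hg, rfl⟩ := mem_image.mp hw
      exact (mem_filter.mp hg).2
    · intro w hw
      obtain ⟨g, hg, rfl⟩ := mem_image.mp hw
      have h5 := mem_erase.mp (mem_filter.mp hg).1
      exact hadj g h5.2 h5.1
  rw [card_image_of_injOn] at h2
  · have h3 := (card_le_card h1).trans (card_union_le _ _)
    have h4 := card_insert_le x0 ((T.erase x0).filter fun g => φ g ∈ A)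
    omega
  · intro g hg g' hg' h
    have h5 := mem_erase.mp (mem_filter.mp (mem_coe.mp hg)).1
    have h6 := mem_erase.mp (mem_filter.mp (mem_coe.mp hg')).1
    exact hinj g h5.2 g' h6.2 h

theorem not_indep_of_thC {r t : ℕ} {M : Matroid (Fin n)} {C : Finset (Fin n)}
    (hC : C ∈ thC r t M) : M.IsCircuit (C : Set (Fin n)) := by
  classical
  unfold thC at hC
  exact (mem_filter.mp hC).2.1

theorem cocircuit_of_thH {r t : ℕ} {M : Matroid (Fin n)} {H : Finset (Fin n)}
    (hH : H ∈ thH r t M) : M.IsCocircuit ((Hᶜ : Finset (Fin n)) : Set (Fin n)) := by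
  classical
  unfold thH at hH
  exact (mem_filter.mp hH).2.1

/-- INJ (may assume DET). -/
theorem inj (hdet : DetStmt) : InjStmt := by
  classical
  intro n r t Δ M M' A D S hM hM' hA hlow ht1 ht2 hthC hthH hNBA hDM' hSM' hmax X' hX'
  by_cases hXA : X' ∈ A
  swap
  · have h1 : X' ∈ NB r M \ A := mem_sdiff.mpr ⟨hX', hXA⟩
    rw [hNBA] at h1
    exact (mem_sdiff.mp h1).1
  by_cases hXD : X' ∈ D
  · exact hDM' hXD
  by_cases hXdet : det r Δ (thC r t M) (thH r t M) (NB r M \ A) X'
  · rw [hthC, hthH, hNBA] at hXdet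
    exact hdet n r t Δ M' (NB r M' \ A) X' hM' ht1 ht2 sdiff_subset (hA hXA) hXdet
  by_cases hXS : X' ∈ S
  · exact hSM' hXS
  obtain ⟨X, hXinS, ⟨hXNB, hXinA, _, hXd⟩, hadj⟩ := hmax X' ⟨hX', hXA, hXD, hXdet⟩ hXS
  obtain ⟨e, f, heX, hfX, heX', hfX', hX'eq, hZ⟩ := adj_elim hadj
  by_contra hcon
  have hXc := mem_NB.mp hXNB
  have hX'c := mem_NB.mp hX'
  have hI' : M'.Indep (X' : Set (Fin n)) := by
    by_contra h
    exact hcon (mem_NB.mpr ⟨hX'c.1, h⟩)
  have hXM' := mem_NB.mp (hSM' hXinS)
  have hZc : (X.erase e).card + 1 = r := by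
    rw [card_erase_add_one heX, hXc.1]
  have hXins : insert e (X.erase e) = X := insert_erase heX
  by_cases hZI : M.Indep ((X.erase e : Finset (Fin n)) : Set (Fin n))
  · -- case 1
    have hall : ∀ g ∈ insert f X, (insert f X).erase g ∈ NB r M := by
      intro g hg
      rw [mem_NB]
      have hc : ((insert f X).erase g).card = r := by
        rw [card_erase_of_mem hg, card_insert_of_notMem hfX, hXc.1]
        rfl
      refine ⟨hc, fun hind => ?_⟩
      obtain ⟨h, hh1, hh2, hh3⟩ := hZI.augment_finset hind (by rw [hc]; omega)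
      rw [mem_erase, mem_insert] at hh1
      rw [← coe_insert] at hh3
      rcases hh1.2 with rfl | hhX
      · rw [← hX'eq] at hh3
        exact hX'c.2 hh3
      · have h5 : h = e := by
          by_contra h6
          exact hh2 (mem_erase.mpr ⟨h6, hhX⟩)
        rw [h5, hXins] at hh3
        exact hXc.2 hh3
    have hcount := count_aux (K := NB r M) hlow hXinA (insert f X)
      (fun g => (insert f X).erase g) f
      (by
        intro g hg g' hg' h
        by_contra hne
        have h5 : g' ∈ (insert f X).erase g := mem_erase.mpr ⟨fun h => hne h.symm, hg'⟩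
        rw [h] at h5
        exact (mem_erase.mp h5).1 rfl)
      (by
        intro g hg hne
        have hgX : g ∈ X := (mem_insert.mp hg).resolve_left hne
        have h5 := (mem_NB.mp (hall g hg)).1
        refine ⟨by rw [hXc.1, h5], ?_⟩
        have h6 : X ∩ (insert f X).erase g = X.erase g := by
          ext x
          rw [mem_inter, mem_erase, mem_insert, mem_erase]
          tauto
        rw [h6, card_erase_add_one hgX]) hall
    rw [card_insert_of_notMem hfX, hXc.1] at hcount
    have hC : ∃ C ∈ thC r t M, C ⊆ insert f X := by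
      by_contra h
      push Not at h
      apply hXd
      right; right; left
      refine ⟨f, hfX, h, ?_⟩
      convert hcount
    obtain ⟨C, hC1, hC2⟩ := hC
    have hfC : f ∈ C := by
      by_contra h
      apply hXd
      left
      refine ⟨C, hC1, fun x hx => ?_⟩
      rcases mem_insert.mp (hC2 hx) with rfl | h5
      · exact absurd hx h
      · exact h5
    have hC' : M'.IsCircuit (C : Set (Fin n)) := by
      rw [hthC] at hC1
      exact not_indep_of_thC hC1
    have hdep : M'.Dep (X : Set (Fin n)) := by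
      rw [Matroid.dep_iff]
      exact ⟨hXM'.2, by rw [hM'.1]; exact Set.subset_univ _⟩
    obtain ⟨C₁, hC₁X, hC₁⟩ := hdep.exists_isCircuit_subset
    have hY : (insert f X : Finset (Fin n)) = insert e X' := by
      rw [hX'eq]
      conv_lhs => rw [← hXins]
      exact insert_comm _ _ _
    have e1 := hC'.eq_fundCircuit_of_subset (e := e) hI' (by
      rw [← coe_insert, ← hY]
      exact coe_subset.mpr hC2)
    have e2 := hC₁.eq_fundCircuit_of_subset (e := e) hI' (by
      rw [← coe_insert, ← hY, coe_insert]
      exact hC₁X.trans (Set.subset_insert _ _))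
    rw [← e2] at e1
    have h7 : f ∈ (C : Set (Fin n)) := hfC
    rw [e1] at h7
    exact hfX (hC₁X h7)
  · -- case 2
    have hall : ∀ g ∈ (univ.filter fun g => g ∉ X.erase e), insert g (X.erase e) ∈ NB r M := by
      intro g hg
      rw [mem_filter] at hg
      rw [mem_NB]
      refine ⟨by rw [card_insert_of_notMem hg.2, hZc], fun hind => hZI (hind.subset ?_)⟩
      rw [coe_insert]
      exact Set.subset_insert _ _
    have hcount := count_aux (K := NB r M) hlow hXinA (univ.filter fun g => g ∉ X.erase e)
      (fun g => insert g (X.erase e)) e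
      (by
        intro g hg g' hg' h
        rw [mem_filter] at hg hg'
        have h5 : g ∈ insert g' (X.erase e) := by rw [← h]; exact mem_insert_self _ _
        rcases mem_insert.mp h5 with h6 | h6
        · exact h6
        · exact absurd h6 hg.2)
      (by
        intro g hg hne
        have h5 := (mem_NB.mp (hall g hg)).1
        rw [mem_filter] at hg
        refine ⟨by rw [hXc.1, h5], ?_⟩
        have h6 : X ∩ insert g (X.erase e) = X.erase e := by
          ext x
          rw [mem_inter, mem_insert, mem_erase]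
          constructor
          · rintro ⟨h7, rfl | h8⟩
            · exact ⟨hne, h7⟩
            · exact h8
          · rintro ⟨h7, h8⟩
            exact ⟨h8, Or.inr ⟨h7, h8⟩⟩
        rw [h6, card_erase_add_one heX]) hall
    have hTc : (univ.filter fun g => g ∉ X.erase e).card = n - r + 1 := by
      have h5 : (univ.filter fun g => g ∉ X.erase e) = (X.erase e)ᶜ := by
        ext x
        rw [mem_filter, mem_compl]
        exact ⟨fun h => h.2, fun h => ⟨mem_univ _, h⟩⟩
      have h6 : X.card ≤ n := by
        have := card_le_univ X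
        rwa [Fintype.card_fin] at this
      rw [h5, card_compl, Fintype.card_fin]
      omega
    rw [hTc, filter_filter] at hcount
    have hH : ∃ H ∈ thH r t M, X.erase e ⊆ H := by
      by_contra h
      push Not at h
      apply hXd
      right; right; right
      refine ⟨e, heX, h, ?_⟩
      convert hcount
    obtain ⟨H, hH1, hH2⟩ := hH
    have heH : e ∉ H := by
      intro h
      apply hXd
      right; left
      refine ⟨H, hH1, ?_⟩
      rw [← hXins]
      exact insert_subset h hH2
    have hK : M'.IsCocircuit ((Hᶜ : Finset (Fin n)) : Set (Fin n)) := by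
      rw [hthH] at hH1
      exact cocircuit_of_thH hH1
    rw [Matroid.isCocircuit_iff_minimal] at hK
    have heK : e ∈ ((Hᶜ : Finset (Fin n)) : Set (Fin n)) := by simpa using heH
    have hnot : ¬ ∀ B, M'.IsBase B →
        ((((Hᶜ : Finset (Fin n)) : Set (Fin n)) \ {e}) ∩ B).Nonempty := by
      intro h
      have h5 := hK.le_of_le h Set.sdiff_subset heK
      exact h5.2 rfl
    push Not at hnot
    obtain ⟨B, hB, hBe⟩ := hnot
    have hZI' : M'.Indep ((X.erase e : Finset (Fin n)) : Set (Fin n)) := by
      rw [← hZ]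
      exact hI'.subset (coe_subset.mpr (erase_subset _ _))
    have hZnb : ¬ M'.IsBase ((X.erase e : Finset (Fin n)) : Set (Fin n)) := by
      intro h
      obtain ⟨x, hx1, hx2⟩ := hK.prop _ h
      have h5 : x ∈ H := hH2 (mem_coe.mp hx2)
      have h6 : x ∉ H := by simpa using hx1
      exact h6 h5
    obtain ⟨g, hg, hgI⟩ := hZI'.exists_insert_of_not_isBase hZnb hB
    have hr : (r : ℕ∞) = M'.eRank := hM'.2.symm
    have hbase : M'.IsBase ((insert g (X.erase e) : Finset (Fin n)) : Set (Fin n)) := by
      obtain ⟨B', hB', hsub⟩ := hgI.exists_isBase_superset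
      have h5 : B'.encard = r := by rw [hB'.encard_eq_eRank, hM'.2]
      have h6 : ((insert g (X.erase e) : Finset (Fin n)) : Set (Fin n)).encard = r := by
        rw [Set.encard_coe_eq_coe_finsetCard, card_insert_of_notMem (fun h => hg.2 (mem_coe.mpr h)), hZc]
      have h7 : ((insert g (X.erase e) : Finset (Fin n)) : Set (Fin n)) ⊆ B' := by
        rw [coe_insert]; exact hsub
      have h8 := (Set.toFinite _).eq_of_subset_of_encard_le h7 (by rw [h5, ← h6])
      rw [h8]
      exact hB'
    obtain ⟨x, hx1, hx2⟩ := hK.prop _ hbase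
    have hxH : x ∉ H := by simpa using hx1
    have hxg : x = g := by
      rcases mem_insert.mp (mem_coe.mp hx2) with h5 | h5
      · exact h5
      · exact absurd (hH2 h5) hxH
    have hge : g = e := by
      by_contra hne
      have h5 : g ∈ (((Hᶜ : Finset (Fin n)) : Set (Fin n)) \ {e}) ∩ B :=
        ⟨⟨by rw [← hxg]; exact hx1, hne⟩, hg.1⟩
      rw [hBe] at h5
      exact h5
    rw [hge, hXins] at hbase
    exact hXM'.2 hbase.indep

end Pool.Agent.Helper39.KC
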